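import Mathlib
import Pool.Agent.Results.MP_f00d09_gt.DiamondCex
import Pool.Agent.U946.DiamondBridge
import Pool.Agent.Helper292.ForceCH

/-!
# Consistently, a regular hereditarily Lindelöf space with Menger countable closures is not a D-space

The forcing language is the one of `Helper292.ForceCH`: a sentence is the set of the conditions
which force it; `DiamondHolds P` is the translation of `PlainDiamond`.
-/

set_option autoImplicit false

namespace Pool.Agent.Results.MP_f00d09_gt.ForcedNotD

open Set Cardinal Pool.Agent.Helper292.ForceCH Pool.Agent.U946
open Pool.Agent.Results.MP_f00d09_gt.DiamondCex (IsDSpace Menger)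

/-- (1) Some forcing notion forces that `ω₁` is preserved and that diamond holds. (2) Diamond implies
that there is a regular `T₁` hereditarily Lindelöf space, in which the closure of every countable set
is countable and Menger, and which is not a D-space. -/
theorem result :
    (∃ (P : Type) (_ : Preorder P), Nonempty P ∧ ∀ p : P,
      p ∈ OmegaOnePreserved P ∧ p ∈ DiamondHolds P) ∧
    (PlainDiamond → ∃ (X : Type) (_ : TopologicalSpace X),
      T3Space X ∧ HereditarilyLindelofSpace X ∧
      (∀ A : Set X, A.Countable → (closure A).Countable ∧ Menger (closure A)) ∧ ¬ IsDSpace X) := by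
  refine ⟨?_, fun h => DiamondCex.result (diamond_of_plain h)⟩
  · obtain ⟨P, i, h1, h2⟩ := exists_forcing
    exact ⟨P, i, h1, fun p => ⟨(h2 p).1, (h2 p).2.1⟩⟩

end Pool.Agent.Results.MP_f00d09_gt.ForcedNotD
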